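import Pool.Agent.Helper61.GS.Elim

/-!
# GS, block P: at most `n` general hyperplanes meet at a point of `X`

`ord_card`: let the coefficients of the `ℓ i` be algebraically independent over `k` and `ℓ i (y) = 0` for `i ∈ s`, `y a ≠ 0`. The coefficients
`ℓ i j`, `i ∈ s`, are algebraic over the field generated by the ratios of the coordinates of `y` and the `ℓ i j`, `j ≠ a`:
`|s| (N + 1) ≤ n + |s| N`. `gp_generic`, `gp_generic_ext` (linear forms over an extension): `elim`.
-/

set_option autoImplicit false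

namespace Pool.Agent.GS

open MvPolynomial

universe u

theorem cl_sub61 {k K : Type u} [Field k] [Field K] [Algebra k K] (s : Set K) : ∃ A : Subring K, (A : Set K) = cl k s := by
  unfold cl
  rw [AlgebraicIndependent.matroid_closure_eq]
  exact ⟨(Subalgebra.algebraicClosure (Algebra.adjoin k s) K).toSubring, rfl⟩

theorem ord_card {k K : Type u} [Field k] [Field K] [Algebra k K] {N n q : ℕ}
    (I : Set (MvPolynomial (Fin (N + 1)) k)) (hD : Dim k I n) (ℓ : Fin q → Fin (N + 1) → K)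
    (hind : AlgebraicIndependent k (fun p : Fin q × Fin (N + 1) => ℓ p.1 p.2)) (y : Fin (N + 1) → K) (hy : y ≠ 0)
    (hX : OnX I y) (s : Finset (Fin q)) (hs : ∀ i ∈ s, dt (ℓ i) y = 0) : s.card ≤ n := by
  classical
  obtain ⟨a, ha⟩ := Function.ne_iff.1 hy
  rw [Pi.zero_apply] at ha
  set M := AlgebraicIndependent.matroid k K with hM
  set v : Fin q × Fin (N + 1) → K := fun p => ℓ p.1 p.2 with hv
  have hinj : Function.Injective v := hind.injective
  obtain ⟨P, hP⟩ : ∃ P : Finset (Fin q × Fin (N + 1)), P = s ×ˢ Finset.univ := ⟨_, rfl⟩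
  obtain ⟨P', hP'⟩ : ∃ P' : Finset (Fin q × Fin (N + 1)), P' = s ×ˢ (Finset.univ.erase a) := ⟨_, rfl⟩
  have hindP : M.Indep (v '' (P : Set (Fin q × Fin (N + 1)))) := by
    have h1 : AlgebraicIndependent k ((↑) : Set.range v → K) := hind.coe_range
    have h2 : M.Indep (Set.range v) := h1
    exact h2.subset (Set.image_subset_range _ _)
  have hc1 : M.eRk (v '' (P : Set (Fin q × Fin (N + 1)))) = ((s.card * (N + 1) : ℕ) : ℕ∞) := by
    rw [hindP.eRk_eq_encard, hinj.encard_image, Set.encard_coe_eq_coe_finsetCard, hP, Finset.card_product,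
      Finset.card_univ, Fintype.card_fin]
  have hc2 : M.eRk (v '' (P' : Set (Fin q × Fin (N + 1)))) ≤ ((s.card * N : ℕ) : ℕ∞) := by
    refine (M.eRk_le_encard _).trans ?_
    rw [hinj.encard_image, Set.encard_coe_eq_coe_finsetCard, hP', Finset.card_product,
      Finset.card_erase_of_mem (Finset.mem_univ a), Finset.card_univ, Fintype.card_fin, Nat.add_sub_cancel]
  have hsub : v '' (P : Set (Fin q × Fin (N + 1))) ⊆ M.closure (Rat y ∪ v '' (P' : Set (Fin q × Fin (N + 1)))) := by
    have hcl : ∀ z ∈ Rat y ∪ v '' (P' : Set (Fin q × Fin (N + 1))), z ∈ M.closure (Rat y ∪ v '' (P' : Set (Fin q × Fin (N + 1)))) :=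
      fun z hz => M.subset_closure _ (by rw [hM, AlgebraicIndependent.matroid_e]; exact Set.subset_univ _) hz
    have hmem' : ∀ i ∈ s, ∀ j, j ≠ a → v (i, j) ∈ M.closure (Rat y ∪ v '' (P' : Set (Fin q × Fin (N + 1)))) := by
      intro i hi j hj
      refine hcl _ (Or.inr ⟨(i, j), ?_, rfl⟩)
      rw [Finset.mem_coe, hP', Finset.mem_product, Finset.mem_erase]
      exact ⟨hi, hj, Finset.mem_univ _⟩
    rintro _ ⟨⟨i, j⟩, hp, rfl⟩
    rw [Finset.mem_coe, hP, Finset.mem_product] at hp
    by_cases hj : j = a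
    · subst hj
      obtain ⟨A, hA⟩ := cl_sub61 (k := k) (Rat y ∪ v '' (P' : Set (Fin q × Fin (N + 1))))
      have hA' : (A : Set K) = M.closure (Rat y ∪ v '' (P' : Set (Fin q × Fin (N + 1)))) := hA
      rw [← hA']
      have h1 : v (i, j) = -∑ j' ∈ Finset.univ.erase j, v (i, j') * (y j' / y j) := by
        have h2 := hs i hp.1
        unfold dt at h2
        rw [← Finset.add_sum_erase _ _ (Finset.mem_univ j)] at h2
        have h3 : ∑ j' ∈ Finset.univ.erase j, v (i, j') * (y j' / y j) =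
            (∑ j' ∈ Finset.univ.erase j, ℓ i j' * y j') / y j := by
          rw [Finset.sum_div]
          exact Finset.sum_congr rfl fun j' _ => (mul_div_assoc _ _ _).symm
        rw [h3]
        show ℓ i j = _
        rw [eq_neg_iff_add_eq_zero]
        field_simp
        rw [mul_zero]
        exact h2
      rw [h1, SetLike.mem_coe]
      refine A.neg_mem (A.sum_mem fun j' hj' => A.mul_mem ?_ ?_)
      · rw [← SetLike.mem_coe, hA']
        exact hmem' i hp.1 j' (Finset.ne_of_mem_erase hj')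
      · rw [← SetLike.mem_coe, hA']
        exact hcl _ (Or.inl ⟨j', j, rfl⟩)
    · exact hmem' i hp.1 j hj
  have h1 : ((s.card * (N + 1) : ℕ) : ℕ∞) ≤ (n : ℕ∞) + ((s.card * N : ℕ) : ℕ∞) := by
    calc ((s.card * (N + 1) : ℕ) : ℕ∞) = M.eRk (v '' (P : Set (Fin q × Fin (N + 1)))) := hc1.symm
      _ ≤ M.eRk (M.closure (Rat y ∪ v '' (P' : Set (Fin q × Fin (N + 1))))) := M.eRk_mono hsub
      _ = M.eRk (Rat y ∪ v '' (P' : Set (Fin q × Fin (N + 1)))) := M.eRk_closure_eq _
      _ ≤ M.eRk (Rat y) + M.eRk (v '' (P' : Set (Fin q × Fin (N + 1)))) := M.eRk_union_le_eRk_add_eRk _ _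
      _ ≤ _ := add_le_add (hD K y hX) hc2
  have h2 : s.card * (N + 1) ≤ n + s.card * N := by exact_mod_cast h1
  have h3 : s.card * (N + 1) = s.card * N + s.card := by ring
  omega

/-- `Φ` for linear forms with coefficients in any extension -/
theorem gp_all61 {k : Type u} [Field k] {N n q : ℕ} (I : Set (MvPolynomial (Fin (N + 1)) k)) (hD : Dim k I n) :
    ∃ Φ : MvPolynomial (Fin q × Fin (N + 1)) k, Φ ≠ 0 ∧ ∀ (K : Type u) [Field K] [Algebra k K]
      (ℓ : Fin q → Fin (N + 1) → K), aeval (fun p : Fin q × Fin (N + 1) => ℓ p.1 p.2) Φ ≠ 0 →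
      ∀ y : Fin (N + 1) → K, y ≠ 0 → OnX I y → ∀ s : Finset (Fin q), (∀ i ∈ s, dt (ℓ i) y = 0) → s.card ≤ n := by
  classical
  have h1 : ∀ s : Finset (Fin q), ∃ Φ : MvPolynomial (Fin q × Fin (N + 1)) k, Φ ≠ 0 ∧ (n < s.card →
      ∀ (K : Type u) [Field K] [Algebra k K] (ℓ : Fin q → Fin (N + 1) → K) (y : Fin (N + 1) → K), y ≠ 0 → OnX I y →
        (∀ i ∈ s, dt (ℓ i) y = 0) → aeval (fun p : Fin q × Fin (N + 1) => ℓ p.1 p.2) Φ = 0) := by
    intro s
    by_cases hs : n < s.card
    · obtain ⟨Φ, hΦ, hΦ'⟩ := elim (k := k) (σ := Fin q × Fin (N + 1)) (τ := Fin (N + 1) ⊕ Fin (N + 1))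
        ({f | ∃ e ∈ I, f = rename (fun a => Sum.inr (Sum.inl a)) e} ∪
          {f | ∃ i ∈ s, f = ∑ j, X (Sum.inl (i, j)) * X (Sum.inr (Sum.inl j))} ∪
          {∑ j, X (Sum.inr (Sum.inr j)) * X (Sum.inr (Sum.inl j)) - 1}) (by
          intro L _ _ a t ha hall
          refine absurd (ord_card I hD (fun i j => a (i, j)) ha (fun j => t (Sum.inl j)) ?_ ?_ s ?_) (not_le.2 hs)
          · intro h0
            have h2 := hall _ (Or.inr rfl)
            rw [map_sub, map_sum, map_one] at h2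
            have h3 : ∀ j, t (Sum.inl j) = 0 := fun j => congrFun h0 j
            rw [Finset.sum_eq_zero, zero_sub, neg_eq_zero] at h2
            · exact one_ne_zero h2
            · intro j _
              rw [map_mul, aeval_X, aeval_X]
              show t (Sum.inr j) * t (Sum.inl j) = 0
              rw [h3, mul_zero]
          · intro e he
            have h2 := hall _ (Or.inl (Or.inl ⟨e, he, rfl⟩))
            rw [aeval_rename] at h2
            exact h2
          · intro i hi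
            have h2 := hall _ (Or.inl (Or.inr ⟨i, hi, rfl⟩))
            rw [map_sum] at h2
            unfold dt
            rw [← h2]
            refine Finset.sum_congr rfl fun j _ => ?_
            rw [map_mul, aeval_X, aeval_X]
            rfl)
      refine ⟨Φ, hΦ, fun _ K _ _ ℓ y hy hX hs' => ?_⟩
      obtain ⟨a, ha⟩ := Function.ne_iff.1 hy
      rw [Pi.zero_apply] at ha
      refine hΦ' K (fun p => ℓ p.1 p.2) (Sum.elim y fun j => if j = a then (y a)⁻¹ else 0) ?_
      rintro f ((⟨e, he, rfl⟩ | ⟨i, hi, rfl⟩) | hf)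
      · rw [aeval_rename]
        exact hX e he
      · rw [map_sum, ← hs' i hi]
        unfold dt
        refine Finset.sum_congr rfl fun j _ => ?_
        rw [map_mul, aeval_X, aeval_X]
        rfl
      · rw [Set.mem_singleton_iff] at hf
        rw [hf, map_sub, map_sum, map_one, Finset.sum_eq_single a]
        · rw [map_mul, aeval_X, aeval_X]
          show (if a = a then (y a)⁻¹ else 0) * y a - 1 = 0
          rw [if_pos rfl, inv_mul_cancel₀ ha, sub_self]
        · intro j _ hj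
          rw [map_mul, aeval_X, aeval_X]
          show (if j = a then (y a)⁻¹ else 0) * y j = 0
          rw [if_neg hj, zero_mul]
        · intro h
          exact absurd (Finset.mem_univ a) h
    · exact ⟨1, one_ne_zero, fun h => absurd h hs⟩
  choose Φ hΦ hΦ' using h1
  refine ⟨∏ s, Φ s, Finset.prod_ne_zero_iff.2 fun s _ => hΦ s, fun K _ _ ℓ hℓ y hy hX s hs => ?_⟩
  by_contra hcard
  apply hℓ
  rw [map_prod]
  exact Finset.prod_eq_zero (Finset.mem_univ s) (hΦ' s (not_le.1 hcard) K ℓ y hy hX hs)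

theorem gp_generic {k : Type u} [Field k] {N n q : ℕ} (I : Set (MvPolynomial (Fin (N + 1)) k)) (hD : Dim k I n) :
    ∃ Φ : MvPolynomial (Fin q × Fin (N + 1)) k, Φ ≠ 0 ∧ ∀ ℓ : Fin q → Fin (N + 1) → k,
      aeval (fun p : Fin q × Fin (N + 1) => ℓ p.1 p.2) Φ ≠ 0 → GP k I ℓ n := by
  obtain ⟨Φ, hΦ, h⟩ := gp_all61 (q := q) I hD
  refine ⟨Φ, hΦ, fun ℓ hℓ K _ _ y hX hy s hs => h K (fun i j => algebraMap k K (ℓ i j)) (fun h2 => hℓ ?_) y hy hX s hs⟩
  have h3 : aeval (fun p : Fin q × Fin (N + 1) => algebraMap k K (ℓ p.1 p.2)) Φ =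
      algebraMap k K (aeval (fun p : Fin q × Fin (N + 1) => ℓ p.1 p.2) Φ) := aeval_algebraMap_apply K _ _
  rw [h3, map_eq_zero] at h2
  exact h2

/-- The same for linear forms over an extension `E` of `k`: `Φ` depends only on `I` and `q`. -/
theorem gp_generic_ext {k : Type u} [Field k] {N n q : ℕ} (I : Set (MvPolynomial (Fin (N + 1)) k)) (hD : Dim k I n) :
    ∃ Φ : MvPolynomial (Fin q × Fin (N + 1)) k, Φ ≠ 0 ∧ ∀ (E : Type u) [Field E] [Algebra k E]
      (ℓ : Fin q → Fin (N + 1) → E), aeval (fun p : Fin q × Fin (N + 1) => ℓ p.1 p.2) Φ ≠ 0 →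
      GP E (map (algebraMap k E) '' I) ℓ n := by
  obtain ⟨Φ, hΦ, h⟩ := gp_all61 (q := q) I hD
  refine ⟨Φ, hΦ, fun E _ _ ℓ hℓ K _ _ y hX hy s hs => ?_⟩
  let _ : Algebra k K := ((algebraMap E K).comp (algebraMap k E)).toAlgebra
  have _ : IsScalarTower k E K := IsScalarTower.of_algebraMap_eq fun _ => rfl
  refine h K (fun i j => algebraMap E K (ℓ i j)) (fun h2 => hℓ ?_) y hy (fun e he => ?_) s hs
  · have h3 : aeval (fun p : Fin q × Fin (N + 1) => algebraMap E K (ℓ p.1 p.2)) Φ =
        algebraMap E K (aeval (fun p : Fin q × Fin (N + 1) => ℓ p.1 p.2) Φ) := aeval_algebraMap_apply K _ _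
    rw [h3, map_eq_zero] at h2
    exact h2
  · have h4 := hX _ ⟨e, he, rfl⟩
    rw [aeval_map_algebraMap] at h4
    exact h4

end Pool.Agent.GS
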