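import Pool.Agent.Helper77.GS.Defs

/-!
# GS, blocks E and F: elimination

`elim`: the set `S` of the nonzero polynomials in the variables `σ` meets the ideal of `E`; otherwise a prime ideal which contains `E` and is
disjoint from `S` gives a field with a zero of `E` whose `σ`-coordinates are algebraically independent.
`bad_poly_of`: the bad data are the zeros of finitely many systems of equations (one for every `A, V, ι` and `σ₀`).
-/

set_option autoImplicit false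

namespace Pool.Agent.GS

open MvPolynomial

universe u

theorem elim {k : Type u} [Field k] {σ τ : Type} (E : Set (MvPolynomial (σ ⊕ τ) k))
    (h : ∀ (L : Type u) [Field L] [Algebra k L] (s : σ → L) (t : τ → L), AlgebraicIndependent k s →
      ¬ ∀ f ∈ E, aeval (Sum.elim s t) f = 0) :
    ∃ Φ : MvPolynomial σ k, Φ ≠ 0 ∧ ∀ (K : Type u) [Field K] [Algebra k K] (s : σ → K) (t : τ → K),
      (∀ f ∈ E, aeval (Sum.elim s t) f = 0) → aeval s Φ = 0 := by
  classical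
  set j : MvPolynomial σ k →ₐ[k] MvPolynomial (σ ⊕ τ) k := rename Sum.inl with hj
  have hjinj : Function.Injective j := rename_injective _ Sum.inl_injective
  obtain ⟨S, hS⟩ : ∃ S : Submonoid (MvPolynomial (σ ⊕ τ) k), S = (nonZeroDivisors (MvPolynomial σ k)).map j := ⟨_, rfl⟩
  have hdis : ¬ Disjoint ((Ideal.span E : Ideal (MvPolynomial (σ ⊕ τ) k)) : Set (MvPolynomial (σ ⊕ τ) k)) S := by
    intro hd
    obtain ⟨P, hP, hEP, hPS⟩ := Ideal.exists_le_prime_disjoint (Ideal.span E) S hd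
    set R := MvPolynomial (σ ⊕ τ) k ⧸ P with hR
    set L := FractionRing R with hL
    set φ : MvPolynomial (σ ⊕ τ) k →ₐ[k] L := (IsScalarTower.toAlgHom k R L).comp (Ideal.Quotient.mkₐ k P) with hφ
    have hφ0 : ∀ f, φ f = 0 ↔ f ∈ P := by
      intro f
      rw [← Ideal.Quotient.eq_zero_iff_mem]
      constructor
      · intro h0
        exact (IsFractionRing.injective R L) (by rw [map_zero]; exact h0)
      · intro h0
        show algebraMap R L (Ideal.Quotient.mk P f) = 0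
        rw [h0, map_zero]
    have hae : ∀ f, aeval (Sum.elim (fun a => φ (X (Sum.inl a))) fun b => φ (X (Sum.inr b))) f = φ f := by
      intro f
      have h1 : φ = aeval (Sum.elim (fun a => φ (X (Sum.inl a))) fun b => φ (X (Sum.inr b))) := by
        refine algHom_ext fun i => ?_
        rw [aeval_X]
        rcases i with a | b <;> rfl
      rw [← h1]
    refine h L (fun a => φ (X (Sum.inl a))) (fun b => φ (X (Sum.inr b))) ?_ fun f hf => ?_
    · rw [algebraicIndependent_iff_injective_aeval, injective_iff_map_eq_zero]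
      intro p hp
      by_contra hp0
      have h1 : φ (j p) = 0 := by
        rw [← hae, hj, aeval_rename]
        exact hp
      rw [hφ0] at h1
      have h2 : j p ∈ S := by
        rw [hS]
        exact Submonoid.mem_map_of_mem _ (mem_nonZeroDivisors_of_ne_zero hp0)
      exact Set.disjoint_left.1 hPS h1 h2
    · rw [hae, hφ0]
      exact hEP (Ideal.subset_span hf)
  rw [Set.not_disjoint_iff] at hdis
  obtain ⟨f, hfE, hfS⟩ := hdis
  rw [hS] at hfS
  obtain ⟨Φ, hΦ, rfl⟩ := hfS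
  refine ⟨Φ, nonZeroDivisors.ne_zero hΦ, fun K _ _ s t hst => ?_⟩
  have h1 : Ideal.span E ≤ RingHom.ker (aeval (R := k) (Sum.elim s t)) := by
    rw [Ideal.span_le]
    exact fun f hf => hst f hf
  have h2 := h1 hfE
  rw [RingHom.mem_ker] at h2
  have h3 : aeval (Sum.elim s t) (j Φ) = 0 := h2
  rw [hj, aeval_rename] at h3
  exact h3

/-- the unknowns: the points, the `c i` and their inverses -/
private abbrev Un61 (N q r : ℕ) : Type := (Fin q × Fin r × Fin (N + 1)) ⊕ (Fin q ⊕ Fin q)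

/-- the value of a linear form at a point -/
private noncomputable def dp61 (k : Type u) [Field k] {N q r : ℕ} (g i : Fin q) (σ : Fin r) :
    MvPolynomial ((Fin q × Fin (N + 1)) ⊕ Un61 N q r) k :=
  ∑ j, X (Sum.inl (g, j)) * X (Sum.inr (Sum.inl (i, σ, j)))

private theorem dp61_aeval {k K : Type u} [Field k] [Field K] [Algebra k K] {N q r : ℕ} (g i : Fin q) (σ : Fin r)
    (s : Fin q × Fin (N + 1) → K) (t : Un61 N q r → K) :
    aeval (Sum.elim s t) (dp61 k g i σ) = dt (fun j => s (g, j)) (fun j => t (Sum.inl (i, σ, j))) := by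
  unfold dp61 dt
  rw [map_sum]
  refine Finset.sum_congr rfl fun j _ => ?_
  rw [map_mul, aeval_X, aeval_X]
  rfl

private theorem bad_one61 {k : Type u} [Field k] {N q : ℕ} (r : ℕ) (I : Set (MvPolynomial (Fin (N + 1)) k))
    (A V : Finset (Fin q)) (ι : Fin q → Fin q) (σ₀ : Fin r)
    (h : ∀ (L : Type u) [Field L] [Algebra k L] (ℓ : Fin q → Fin (N + 1) → L),
      AlgebraicIndependent k (fun p : Fin q × Fin (N + 1) => ℓ p.1 p.2) → ¬ Bad I r A V ι ℓ) :
    ∃ Φ : MvPolynomial (Fin q × Fin (N + 1)) k, Φ ≠ 0 ∧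
      ∀ (K : Type u) [Field K] [Algebra k K] (ℓ : Fin q → Fin (N + 1) → K)
        (x : Fin q → Fin r → Fin (N + 1) → K) (c : Fin q → K),
        (∀ i ∈ V, ∀ σ, OnX I (x i σ)) →
        (∀ i ∈ V, ∀ h ∈ insert i A, dt (ℓ h) (x i σ₀) = 0) →
        (∀ i ∈ V, ∀ g, (∀ j ∈ V, g ≠ ι j) → ∏ σ, dt (ℓ g) (x i σ) = 0) →
        (∀ i ∈ V, ∀ m ∈ V, ∏ σ, dt (ℓ (ι m)) (x i σ) = c (ι m)) → (∀ m ∈ V, c (ι m) ≠ 0) →
        aeval (fun p : Fin q × Fin (N + 1) => ℓ p.1 p.2) Φ = 0 := by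
  obtain ⟨Φ, hΦ, hΦ'⟩ := elim (k := k) (σ := Fin q × Fin (N + 1)) (τ := Un61 N q r)
    ({f | ∃ i ∈ V, ∃ σ, ∃ e ∈ I, f = rename (fun a => Sum.inr (Sum.inl (i, σ, a))) e} ∪
      {f | ∃ i ∈ V, ∃ h ∈ insert i A, f = dp61 k h i σ₀} ∪
      {f | ∃ i ∈ V, ∃ g, (∀ j ∈ V, g ≠ ι j) ∧ f = ∏ σ, dp61 k g i σ} ∪
      {f | ∃ i ∈ V, ∃ m ∈ V, f = ∏ σ, dp61 k (ι m) i σ - X (Sum.inr (Sum.inr (Sum.inl (ι m))))} ∪
      {f | ∃ m ∈ V, f = X (Sum.inr (Sum.inr (Sum.inl (ι m)))) * X (Sum.inr (Sum.inr (Sum.inr m))) - 1})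
    (by
      intro L _ _ s t hs hall
      refine h L (fun g j => s (g, j)) hs ⟨σ₀, fun i σ j => t (Sum.inl (i, σ, j)), fun i => t (Sum.inr (Sum.inl i)),
        ?_, ?_, ?_, ?_, ?_⟩
      · intro i hi σ e he
        have h1 := hall _ (Or.inl (Or.inl (Or.inl (Or.inl ⟨i, hi, σ, e, he, rfl⟩))))
        rw [aeval_rename] at h1
        exact h1
      · intro i hi g hg
        have h1 := hall _ (Or.inl (Or.inl (Or.inl (Or.inr ⟨i, hi, g, hg, rfl⟩))))
        rw [dp61_aeval] at h1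
        exact h1
      · intro i hi g hg
        have h1 := hall _ (Or.inl (Or.inl (Or.inr ⟨i, hi, g, hg, rfl⟩)))
        rw [map_prod] at h1
        rw [← h1]
        exact Finset.prod_congr rfl fun σ _ => (dp61_aeval g i σ s t).symm
      · intro i hi m hm
        have h1 := hall _ (Or.inl (Or.inr ⟨i, hi, m, hm, rfl⟩))
        rw [map_sub, map_prod, aeval_X, sub_eq_zero] at h1
        refine Eq.trans ?_ h1
        exact Finset.prod_congr rfl fun σ _ => (dp61_aeval (ι m) i σ s t).symm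
      · intro m hm h0
        have h1 := hall _ (Or.inr ⟨m, hm, rfl⟩)
        rw [map_sub, map_mul, aeval_X, aeval_X, map_one] at h1
        have h2 : t (Sum.inr (Sum.inl (ι m))) * t (Sum.inr (Sum.inr m)) - 1 = 0 := h1
        have h3 : t (Sum.inr (Sum.inl (ι m))) = 0 := h0
        rw [h3, zero_mul, zero_sub, neg_eq_zero] at h2
        exact one_ne_zero h2)
  refine ⟨Φ, hΦ, fun K _ _ ℓ x c h1 h2 h3 h4 h5 => ?_⟩
  refine hΦ' K (fun p => ℓ p.1 p.2) (Sum.elim (fun p => x p.1 p.2.1 p.2.2) (Sum.elim c fun m => (c (ι m))⁻¹)) ?_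
  have hdp : ∀ g i σ, aeval (Sum.elim (fun p : Fin q × Fin (N + 1) => ℓ p.1 p.2)
      (Sum.elim (fun p => x p.1 p.2.1 p.2.2) (Sum.elim c fun m => (c (ι m))⁻¹))) (dp61 k g i σ) =
      dt (ℓ g) (x i σ) := fun g i σ => dp61_aeval g i σ _ _
  rintro f ((((⟨i, hi, σ, e, he, rfl⟩ | ⟨i, hi, g, hg, rfl⟩) | ⟨i, hi, g, hg, rfl⟩) | ⟨i, hi, m, hm, rfl⟩) | ⟨m, hm, rfl⟩)
  · rw [aeval_rename]
    exact h1 i hi σ e he
  · rw [hdp]
    exact h2 i hi g hg
  · rw [map_prod, Finset.prod_congr rfl fun σ _ => hdp g i σ]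
    exact h3 i hi g hg
  · rw [map_sub, map_prod, Finset.prod_congr rfl fun σ _ => hdp (ι m) i σ, aeval_X, h4 i hi m hm]
    exact sub_self _
  · rw [map_sub, map_mul, aeval_X, aeval_X, map_one]
    show c (ι m) * (c (ι m))⁻¹ - 1 = 0
    rw [mul_inv_cancel₀ (h5 m hm), sub_self]

/-- Bad linear forms lie on a hypersurface, if generic linear forms are not bad. -/
theorem bad_poly_of {k : Type u} [Field k] {N n q : ℕ} (r : ℕ) (I : Set (MvPolynomial (Fin (N + 1)) k))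
    (h : ∀ (L : Type u) [Field L] [Algebra k L] (ℓ : Fin q → Fin (N + 1) → L) (A V : Finset (Fin q)) (ι : Fin q → Fin q),
      Comb n A V ι → AlgebraicIndependent k (fun p : Fin q × Fin (N + 1) => ℓ p.1 p.2) → ¬ Bad I r A V ι ℓ) :
    ∃ Φ : MvPolynomial (Fin q × Fin (N + 1)) k, Φ ≠ 0 ∧
      ∀ (K : Type u) [Field K] [Algebra k K] (ℓ : Fin q → Fin (N + 1) → K) (A V : Finset (Fin q))
        (ι : Fin q → Fin q), Comb n A V ι → Bad I r A V ι ℓ →
        aeval (fun p : Fin q × Fin (N + 1) => ℓ p.1 p.2) Φ = 0 := by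
  classical
  have h1 : ∀ t : Finset (Fin q) × Finset (Fin q) × (Fin q → Fin q) × Fin r,
      ∃ Φ : MvPolynomial (Fin q × Fin (N + 1)) k, Φ ≠ 0 ∧ (Comb n t.1 t.2.1 t.2.2.1 →
        ∀ (K : Type u) [Field K] [Algebra k K] (ℓ : Fin q → Fin (N + 1) → K)
          (x : Fin q → Fin r → Fin (N + 1) → K) (c : Fin q → K),
          (∀ i ∈ t.2.1, ∀ σ, OnX I (x i σ)) →
          (∀ i ∈ t.2.1, ∀ h ∈ insert i t.1, dt (ℓ h) (x i t.2.2.2) = 0) →
          (∀ i ∈ t.2.1, ∀ g, (∀ j ∈ t.2.1, g ≠ t.2.2.1 j) → ∏ σ, dt (ℓ g) (x i σ) = 0) →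
          (∀ i ∈ t.2.1, ∀ m ∈ t.2.1, ∏ σ, dt (ℓ (t.2.2.1 m)) (x i σ) = c (t.2.2.1 m)) →
          (∀ m ∈ t.2.1, c (t.2.2.1 m) ≠ 0) →
          aeval (fun p : Fin q × Fin (N + 1) => ℓ p.1 p.2) Φ = 0) := by
    rintro ⟨A, V, ι, σ₀⟩
    by_cases hc : Comb n A V ι
    · obtain ⟨Φ, hΦ, hΦ'⟩ := bad_one61 r I A V ι σ₀ fun L _ _ ℓ hℓ => h L ℓ A V ι hc hℓ
      exact ⟨Φ, hΦ, fun _ => hΦ'⟩
    · exact ⟨1, one_ne_zero, fun h => absurd h hc⟩
  choose Φ hΦ hΦ' using h1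
  refine ⟨∏ t, Φ t, Finset.prod_ne_zero_iff.2 fun t _ => hΦ t, fun K _ _ ℓ A V ι hc hbad => ?_⟩
  obtain ⟨σ₀, x, c, a1, a2, a3, a4, a5⟩ := hbad
  rw [map_prod]
  exact Finset.prod_eq_zero (Finset.mem_univ (A, V, ι, σ₀)) (hΦ' (A, V, ι, σ₀) hc K ℓ x c a1 a2 a3 a4 a5)

end Pool.Agent.GS

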